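import Pool.Agent.H39.TO.Targets

/-! Two-orbit polyhedra in hyperbolic 3-space, row KKA: the possible pairs `k, k'`. -/

set_option autoImplicit false

namespace Pool.Agent.H82.TOH

open Pool.Agent.H57.CP Pool.Agent.H39.TO

theorem cos_anti {p : ℕ} {t : ℝ} (hp : 0 < p) (ht : t = Real.pi / p) {a b : ℕ} (hab : a ≤ b)
    (hb : b ≤ p) : Real.cos (b * t) ≤ Real.cos (a * t) := by
  have hp' : (0 : ℝ) < p := by exact_mod_cast hp
  have ht0 : 0 < t := by rw [ht]; positivity
  have hpt : (p : ℝ) * t = Real.pi := by rw [ht]; field_simp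
  have h1 : (a : ℝ) * t ≤ b * t := mul_le_mul_of_nonneg_right (by exact_mod_cast hab) ht0.le
  have h2 : (b : ℝ) * t ≤ Real.pi := by
    rw [← hpt]; exact mul_le_mul_of_nonneg_right (by exact_mod_cast hb) ht0.le
  exact Real.cos_le_cos_of_nonneg_of_le_pi (by positivity) h2 h1

/-- numerical bounds -/
theorem num {p : ℕ} {t : ℝ} (hp : 7 ≤ p) (ht : t = Real.pi / p) :
    0 < t ∧ 0.899 ≤ Real.cos t ∧ 0.597 ≤ Real.cos (2 * t) ∧ Real.cos (2 * t) < 1 ∧ 7 * t ≤ Real.pi := by
  have hp' : (7 : ℝ) ≤ p := by exact_mod_cast hp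
  have hpos : (0 : ℝ) < p := by linarith
  have ht0 : 0 < t := by rw [ht]; positivity
  have hpt : (p : ℝ) * t = Real.pi := by rw [ht]; field_simp
  have h7 : 7 * t ≤ Real.pi := by nlinarith
  have hpi := Real.pi_lt_d4
  have ht1 : t ≤ 0.4488 := by
    have : 7 * t ≤ 3.1416 := by linarith
    linarith
  have h1 : 1 - t ^ 2 / 2 ≤ Real.cos t := Real.one_sub_sq_div_two_le_cos
  have h2 : 1 - (2 * t) ^ 2 / 2 ≤ Real.cos (2 * t) := Real.one_sub_sq_div_two_le_cos
  refine ⟨ht0, by nlinarith, by nlinarith, ?_, h7⟩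
  have h3 : 0 < 2 * t := by linarith
  have h4 : Real.cos (2 * t) < Real.cos 0 :=
    Real.cos_lt_cos_of_nonneg_of_le_pi (le_refl 0) (by linarith) h3
  simpa using h4

/-- `2 sin t ≤ sin (j t)` for `3 ≤ j ≤ p - 4` -/
theorem sin_ge {p : ℕ} {t : ℝ} (hp : 7 ≤ p) (ht : t = Real.pi / p) {j : ℕ} (h3 : 3 ≤ j)
    (h4 : j + 4 ≤ p) : 2 * Real.sin t ≤ Real.sin (j * t) := by
  obtain ⟨ht0, hc1, hc2, -, h7⟩ := num hp ht
  have hp0 : (0 : ℝ) < p := by exact_mod_cast (by omega : 0 < p)
  have hpt : (p : ℝ) * t = Real.pi := by rw [ht]; field_simp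
  have hpi := Real.pi_pos
  have hs0 : 0 < Real.sin t := Real.sin_pos_of_pos_of_lt_pi ht0 (by linarith)
  have h3' : (3 : ℝ) ≤ j := by exact_mod_cast h3
  have h4' : (j : ℝ) + 4 ≤ p := by exact_mod_cast h4
  rcases le_total ((j : ℝ) * t) (Real.pi / 2) with h | h
  · have h5 : Real.sin (3 * t) ≤ Real.sin (j * t) :=
      Real.sin_le_sin_of_le_of_le_pi_div_two (by linarith) h
        (mul_le_mul_of_nonneg_right h3' ht0.le)
    have h6 : Real.sin (3 * t) = Real.sin t * (1 + 2 * Real.cos (2 * t)) := by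
      rw [Real.sin_three_mul, Real.cos_two_mul, Real.cos_sq']; ring
    rw [h6] at h5
    nlinarith
  · have h5 : Real.sin (j * t) = Real.sin ((p - j) * t) := by
      rw [← Real.sin_pi_sub (j * t), ← hpt]; congr 1; ring
    have h6 : ((p : ℝ) - j) * t ≤ Real.pi / 2 := by nlinarith
    have h7' : Real.sin (4 * t) ≤ Real.sin ((p - j) * t) := by
      refine Real.sin_le_sin_of_le_of_le_pi_div_two (by linarith) h6 ?_
      exact mul_le_mul_of_nonneg_right (by linarith) ht0.le
    have h8 : Real.sin (4 * t) = 4 * Real.sin t * Real.cos t * Real.cos (2 * t) := by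
      have : (4 : ℝ) * t = 2 * (2 * t) := by ring
      rw [this, Real.sin_two_mul (2 * t), Real.sin_two_mul t]; ring
    rw [h5]
    refine le_trans ?_ h7'
    rw [h8]
    have h9 : (1 : ℝ) / 2 ≤ Real.cos t * Real.cos (2 * t) := by nlinarith
    nlinarith

theorem g_id (y t : ℝ) : (2 * Real.cos (2 * t) - 1) * Real.cos (y + t) - Real.cos (y + 3 * t) =
    2 * Real.sin t * Real.sin y := by
  have e1 : y + 3 * t = (y + t) + 2 * t := by ring
  have e2 : Real.sin y = Real.sin ((y + t) - t) := by congr 1; ring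
  rw [e1, Real.cos_add (y + t) (2 * t), e2, Real.sin_sub, Real.sin_two_mul, Real.cos_two_mul]
  have h := Real.sin_sq_add_cos_sq t
  linear_combination (2 * Real.cos (y + t)) * h

theorem pf_KKA : T_KKA := by
  intro p k k' C _ hp hk _ hs hkk hC hf
  set t : ℝ := Real.pi / p with ht
  obtain ⟨ht0, hc1, hc2, hc3, h7⟩ := num hp ht
  have hpi := Real.pi_pos
  have hp0 : (0 : ℝ) < p := by exact_mod_cast (by omega : 0 < p)
  have hpt : (p : ℝ) * t = Real.pi := by rw [ht]; field_simp
  obtain ⟨m, rfl⟩ : ∃ m, k' = k + m := ⟨k' - k, by omega⟩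
  have hm : 1 ≤ m := by omega
  have ec : c2 p = Real.cos (2 * t) := by
    unfold c2; rw [ht]; congr 1; ring
  rw [ec] at hC
  set c := Real.cos (2 * t) with hcdef
  have hs0 : 0 < Real.sin t := Real.sin_pos_of_pos_of_lt_pi ht0 (by linarith)
  have hcs : 1 - c = 2 * Real.sin t ^ 2 := by
    rw [hcdef, Real.cos_two_mul, Real.cos_sq']; ring
  -- the upper bound for g
  have hg : (2 * c - 1) * Real.cos (m * t) - Real.cos (((2 * k + m : ℕ) : ℝ) * t) < 2 * (1 - c) := by
    have ef : fk p C k (k + m) = C * (Real.sin (k * t) * Real.sin ((k + m) * t)) -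
        Real.cos (k * t) * Real.cos ((k + m) * t) := by
      unfold fk
      have e1 : (k : ℝ) * Real.pi / p = k * t := by rw [ht]; ring
      have e2 : ((k + m : ℕ) : ℝ) * Real.pi / p = (k + m) * t := by rw [ht]; push_cast; ring
      rw [e1, e2]; ring
    rw [ef] at hf
    have e3 : Real.cos (m * t) = Real.cos (k * t) * Real.cos ((k + m) * t) +
        Real.sin (k * t) * Real.sin ((k + m) * t) := by
      have : (m : ℝ) * t = (k + m) * t - k * t := by ring
      rw [this, Real.cos_sub]; ring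
    have e4 : Real.cos (((2 * k + m : ℕ) : ℝ) * t) = Real.cos (k * t) * Real.cos ((k + m) * t) -
        Real.sin (k * t) * Real.sin ((k + m) * t) := by
      have : ((2 * k + m : ℕ) : ℝ) * t = (k + m) * t + k * t := by push_cast; ring
      rw [this, Real.cos_add]; ring
    have hS : 0 ≤ Real.sin (k * t) * Real.sin ((k + m) * t) := by
      have h1 : (k : ℝ) * t ≤ Real.pi := by
        rw [← hpt]; exact mul_le_mul_of_nonneg_right (by exact_mod_cast (by omega : k ≤ p)) ht0.le
      have h2 : ((k : ℝ) + m) * t ≤ Real.pi := by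
        rw [← hpt]
        exact mul_le_mul_of_nonneg_right (by exact_mod_cast (by omega : k + m ≤ p)) ht0.le
      exact mul_nonneg (Real.sin_nonneg_of_nonneg_of_le_pi (by positivity) h1)
        (Real.sin_nonneg_of_nonneg_of_le_pi (by positivity) h2)
    rw [e3, e4]
    set S := Real.sin (k * t) * Real.sin ((k + m) * t)
    set K := Real.cos (k * t) * Real.cos ((k + m) * t)
    have h1 : c * S ≤ (1 - c) * C * S := mul_le_mul_of_nonneg_right hC hS
    have h2 : (1 - c) * (C * S - K) < (1 - c) * 1 := mul_lt_mul_of_pos_left hf (by linarith)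
    nlinarith
  have hmono : ∀ j : ℕ, j ≤ 2 * k + m → (2 * c - 1) * Real.cos (m * t) - Real.cos (j * t) ≤
      (2 * c - 1) * Real.cos (m * t) - Real.cos (((2 * k + m : ℕ) : ℝ) * t) := by
    intro j hj
    have := cos_anti (p := p) (t := t) (by omega) ht hj (by omega)
    linarith
  -- the case m ≥ 4
  have hm4 : ¬ 4 ≤ m := by
    intro h4
    obtain ⟨j, rfl⟩ : ∃ j, m = j + 1 := ⟨m - 1, by omega⟩
    have h1 := hmono (j + 3) (by omega)
    have h2 := sin_ge hp ht (j := j) (by omega) (by omega)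
    have h3 := g_id (j * t) t
    have e1 : ((j + 1 : ℕ) : ℝ) * t = j * t + t := by push_cast; ring
    have e2 : ((j + 3 : ℕ) : ℝ) * t = j * t + 3 * t := by push_cast; ring
    rw [← hcdef, ← e1, ← e2] at h3
    rw [h3] at h1
    nlinarith
  by_cases hk1 : k = 1
  · subst hk1
    refine ⟨rfl, ?_⟩
    omega
  · exfalso
    have hk2 : 2 ≤ k := by omega
    have h1 := hmono (m + 4) (by omega)
    have hx : Real.cos t ^ 2 = (1 + c) / 2 := by rw [Real.cos_sq, ← hcdef]; ring
    have hcc : (1 : ℝ) / 2 ≤ c * Real.cos t := by nlinarith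
    have h1c : 0 < 1 - c := by linarith
    obtain rfl | rfl | rfl : m = 1 ∨ m = 2 ∨ m = 3 := by omega
    · have e5 : Real.cos (((1 + 4 : ℕ) : ℝ) * t) = Real.cos t * (4 * c ^ 2 - 2 * c - 1) := by
        have : ((1 + 4 : ℕ) : ℝ) * t = 3 * t + 2 * t := by push_cast; ring
        rw [this, Real.cos_add, Real.cos_three_mul, Real.sin_three_mul, Real.sin_two_mul, ← hcdef]
        have h := Real.sin_sq_add_cos_sq t
        have h' : Real.sin t ^ 2 = (1 - c) / 2 := by linarith
        have : (4 * Real.cos t ^ 3 - 3 * Real.cos t) * c - (3 * Real.sin t - 4 * Real.sin t ^ 3) *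
            (2 * Real.sin t * Real.cos t) = Real.cos t * ((4 * Real.cos t ^ 2 - 3) * c -
              2 * (3 - 4 * Real.sin t ^ 2) * Real.sin t ^ 2) := by ring
        rw [this, hx, h']; ring
      rw [e5] at h1
      have e6 : Real.cos (((1 : ℕ) : ℝ) * t) = Real.cos t := by norm_num
      rw [e6] at h1 hg
      nlinarith
    · have e5 : Real.cos (((2 + 4 : ℕ) : ℝ) * t) = 4 * c ^ 3 - 3 * c := by
        have : ((2 + 4 : ℕ) : ℝ) * t = 3 * (2 * t) := by push_cast; ring
        rw [this, Real.cos_three_mul, ← hcdef]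
      rw [e5] at h1
      have e6 : Real.cos (((2 : ℕ) : ℝ) * t) = c := by rw [hcdef]; norm_num
      rw [e6] at h1 hg
      have h2 : 0 ≤ (1 - c) * (c * (1 + 2 * c) - 1) := mul_nonneg h1c.le (by nlinarith)
      nlinarith
    · have e5 : Real.cos (((3 + 4 : ℕ) : ℝ) * t) = Real.cos t * (8 * c ^ 3 - 4 * c ^ 2 - 4 * c + 1) := by
        have : ((3 + 4 : ℕ) : ℝ) * t = 3 * (2 * t) + t := by push_cast; ring
        rw [this, Real.cos_add, Real.cos_three_mul, Real.sin_three_mul, ← hcdef, Real.sin_two_mul]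
        have h := Real.sin_sq_add_cos_sq t
        have h' : Real.sin t ^ 2 = (1 - c) / 2 := by linarith
        have : (4 * c ^ 3 - 3 * c) * Real.cos t - (3 * (2 * Real.sin t * Real.cos t) -
            4 * (2 * Real.sin t * Real.cos t) ^ 3) * Real.sin t = Real.cos t * ((4 * c ^ 3 - 3 * c) -
              (6 - 32 * Real.sin t ^ 2 * Real.cos t ^ 2) * Real.sin t ^ 2) := by ring
        rw [this, hx, h']; ring
      rw [e5] at h1
      have e6 : Real.cos (((3 : ℕ) : ℝ) * t) = Real.cos t * (2 * c - 1) := by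
        have : ((3 : ℕ) : ℝ) * t = 3 * t := by norm_num
        rw [this, Real.cos_three_mul]
        have : 4 * Real.cos t ^ 3 - 3 * Real.cos t = Real.cos t * (4 * Real.cos t ^ 2 - 3) := by ring
        rw [this, hx]; ring
      rw [e6] at h1 hg
      have h2 : (1 : ℝ) / 4 ≤ c ^ 2 * Real.cos t := by nlinarith
      have h3 : 0 ≤ (1 - c) * (c ^ 2 * Real.cos t - 1 / 4) := mul_nonneg h1c.le (by linarith)
      nlinarith

end Pool.Agent.H82.TOH
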