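import Pool.Agent.H39.TO.Targets

/-! Two-orbit polyhedra in hyperbolic 3-space, row XS1: odd faces, degree 4. -/

set_option autoImplicit false

namespace Pool.Agent.H82.TOH

open Pool.Agent.H57.CP Pool.Agent.H39.TO

theorem mk_symm (x y : V4) : mk x y = mk y x := by
  unfold mk; ring

theorem mk_refl (x a y : V4) : mk x (refl a y) = mk x y + 2 * mk a y * mk x a := by
  change x 3 * (y 3 + 2 * mk a y * a 3) - x 0 * (y 0 + 2 * mk a y * a 0) -
    x 1 * (y 1 + 2 * mk a y * a 1) - x 2 * (y 2 + 2 * mk a y * a 2) = _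
  unfold mk; ring

theorem refl_apply (a y : V4) : refl a y = y + (2 * mk a y) • a := by
  ext i
  change y i + 2 * mk a y * a i = y i + (2 * mk a y) * a i
  ring

theorem li3 {al : Fin 3 → V4} (h : LinearIndependent ℝ al) {c : ℝ} (hc : c ≠ 0) :
    LinearIndependent ℝ ![al 0 + c • al 2, al 0, al 1] := by
  rw [Fintype.linearIndependent_iff] at h ⊢
  intro g hg
  rw [Fin.sum_univ_three] at hg
  simp only [Matrix.cons_val_zero, Matrix.cons_val_one, Matrix.cons_val] at hg
  have h1 := h ![g 0 + g 1, g 2, c * g 0] (by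
    rw [Fin.sum_univ_three]
    simp only [Matrix.cons_val_zero, Matrix.cons_val_one, Matrix.cons_val]
    rw [← hg]
    ext i
    simp only [Pi.add_apply, Pi.smul_apply, smul_eq_mul]
    ring)
  have h2 := h1 0
  have h3 := h1 1
  have h4 := h1 2
  simp only [Matrix.cons_val_zero, Matrix.cons_val_one, Matrix.cons_val] at h2 h3 h4
  have h5 : g 0 = 0 := by
    rcases mul_eq_zero.1 h4 with h | h
    · exact absurd h hc
    · exact h
  intro i
  fin_cases i
  · exact h5
  · change g 1 = 0; linarith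
  · exact h3

theorem orderOf_of_iff {G : Type*} [Group G] {g : G} {N : ℕ} (h : ∀ m : ℕ, g ^ m = 1 ↔ N ∣ m) :
    orderOf g = N :=
  Nat.dvd_antisymm (orderOf_dvd_of_pow_eq_one ((h N).2 dvd_rfl)) ((h _).1 (pow_orderOf_eq_one g))

theorem oE_of_iff {G : Type*} [Group G] {ψ : G →* Equiv.Perm H3} (hψ : Function.Injective ψ)
    {g : G} {N : ℕ} (hN : N ≠ 0) (h : ∀ m : ℕ, g ^ m = 1 ↔ N ∣ m) : oE (ψ g) = N := by
  have h1 : orderOf (ψ g) = N := by
    apply orderOf_of_iff
    intro m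
    rw [← map_pow, ← h m]
    constructor
    · intro h2
      exact hψ (by rw [h2, map_one])
    · intro h2
      rw [h2, map_one]
  unfold oE
  rw [h1, if_neg hN]

/-- the mirror-swapped product: relations in the group -/
theorem grp_rel {G : Type*} [Group G] {a b c : G} (ha : a * a = 1) (hb : b * b = 1)
    (hc : c * c = 1) (hab : (a * b) ^ 2 = 1) (hbc : (b * c) ^ 3 = 1) :
    c * a * c⁻¹ * a = (c * a) ^ 2 ∧ c * a * c⁻¹ * b = (c * b) * (a * c) * (c * b)⁻¹ := by
  have hc' : c⁻¹ = c := inv_eq_of_mul_eq_one_left hc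
  have hb' : b⁻¹ = b := inv_eq_of_mul_eq_one_left hb
  have ha' : a⁻¹ = a := inv_eq_of_mul_eq_one_left ha
  have hcomm : a * b = b * a := by
    have : a * b * (a * b) = 1 := by rw [← pow_two]; exact hab
    have h2 : (a * b)⁻¹ = a * b := inv_eq_of_mul_eq_one_left this
    rw [mul_inv_rev, ha', hb'] at h2
    exact h2.symm
  have hbr : c * b * c = b * c * b := by
    have h1 : b * c * (b * c) * (b * c) = 1 := by
      rw [← hbc, pow_succ, pow_two]
    have h2 : (b * c * b) * (c * b * c) = 1 := by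
      rw [← h1]; group
    have h3 : (c * b * c)⁻¹ = b * c * b := inv_eq_of_mul_eq_one_left h2
    rw [← h3, mul_inv_rev, mul_inv_rev, hc', hb']
    group
  refine ⟨?_, ?_⟩
  · rw [hc', pow_two]; group
  · rw [hc', mul_inv_rev, hc', hb']
    have e1 : c * b * (a * c) * (b * c) = c * (b * a) * (c * b * c) := by group
    have e2 : c * (b * a) * (b * c * b) = c * (b * (a * b)) * c * b := by group
    have e3 : b * (a * b) = a := by rw [hcomm, ← mul_assoc, hb, one_mul]
    rw [e1, hbr, e2, e3]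

theorem pf_XS1 : T_NRB → T_REP → T_PSI → T_BWS → T_CHT → T_DIF → T_BEB → T_BEE → T_BEF →
    T_XS1 := by
  intro hNRB hREP hPSI hBWS hCHT hDIF hBEB hBEE hBEF p hodd hp5
  set M : CoxeterMatrix (Fin 3) := cox 2 p 3 ⟨by norm_num, by omega, by norm_num⟩ with hM
  have m01 : M 0 1 = 2 := rfl
  have m02 : M 0 2 = p := rfl
  have m12 : M 1 2 = 3 := rfl
  have m20 : M 2 0 = p := rfl
  have hp0 : (0 : ℝ) < p := by exact_mod_cast (by omega : 0 < p)
  have hp5' : (5 : ℝ) ≤ p := by exact_mod_cast hp5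
  obtain ⟨al, hN, ho0, ho1, ho2⟩ := hNRB M 0 1 2 (by decide) (by decide) (by decide)
    (by rw [m01]; norm_num)
  obtain ⟨σ, hσ⟩ := hREP M al hN
  obtain ⟨ψ, hψ, hinj⟩ := hPSI M al σ hN hσ
  set s0 := ss M 0 with hs0
  set s1 := ss M 1 with hs1
  set s2 := ss M 2 with hs2
  have q0 : s0 * s0 = 1 := M.toCoxeterSystem.simple_mul_simple_self 0
  have q1 : s1 * s1 = 1 := M.toCoxeterSystem.simple_mul_simple_self 1
  have q2 : s2 * s2 = 1 := M.toCoxeterSystem.simple_mul_simple_self 2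
  have d01 : ∀ m : ℕ, (s0 * s1) ^ m = 1 ↔ 2 ∣ m := (hDIF M al σ hN hσ 0 1 (by decide)
    (by rw [m01]; norm_num)).2
  have d12 : ∀ m : ℕ, (s1 * s2) ^ m = 1 ↔ 3 ∣ m := (hDIF M al σ hN hσ 1 2 (by decide)
    (by rw [m12]; norm_num)).2
  have d20 : ∀ m : ℕ, (s2 * s0) ^ m = 1 ↔ p ∣ m := (hDIF M al σ hN hσ 2 0 (by decide)
    (by rw [m20]; omega)).2
  have d02 : ∀ m : ℕ, (s0 * s2) ^ m = 1 ↔ p ∣ m := (hDIF M al σ hN hσ 0 2 (by decide)
    (by rw [m02]; omega)).2
  obtain ⟨g1, g2⟩ := grp_rel q0 q1 q2 ((d01 2).2 dvd_rfl) ((d12 3).2 dvd_rfl)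
  set r : M.Group := s2 * s0 * s2⁻¹ with hr
  have q2' : s2⁻¹ = s2 := inv_eq_of_mul_eq_one_left q2
  -- the numbers
  set c1 : ℝ := Real.cos (Real.pi / p) with hc1
  have n00 : mk (al 0) (al 0) = -1 := hN.unit 0
  have n11 : mk (al 1) (al 1) = -1 := hN.unit 1
  have n22 : mk (al 2) (al 2) = -1 := hN.unit 2
  have n01 : mk (al 0) (al 1) = 0 := by
    rw [hN.fin 0 1 (by decide) (by rw [m01]; norm_num), m01]
    norm_num
  have n02 : mk (al 0) (al 2) = c1 := by
    rw [hN.fin 0 2 (by decide) (by rw [m02]; omega), m02]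
  have n12 : mk (al 1) (al 2) = 1 / 2 := by
    rw [hN.fin 1 2 (by decide) (by rw [m12]; norm_num), m12]
    norm_num
  have n10 : mk (al 1) (al 0) = 0 := by rw [mk_symm, n01]
  have n20 : mk (al 2) (al 0) = c1 := by rw [mk_symm, n02]
  have n21 : mk (al 2) (al 1) = 1 / 2 := by rw [mk_symm, n12]
  have hpi := Real.pi_pos
  have hq : Real.pi / p ≤ Real.pi / 5 := div_le_div_of_nonneg_left hpi.le (by norm_num) hp5'
  have hq0 : 0 < Real.pi / p := by positivity
  have c1half : 1 / 2 < c1 := by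
    rw [hc1, ← Real.cos_pi_div_three]
    exact Real.cos_lt_cos_of_nonneg_of_le_pi hq0.le (by linarith) (by linarith)
  have c1one : c1 < 1 := by
    rw [hc1, ← Real.cos_zero]
    exact Real.cos_lt_cos_of_nonneg_of_le_pi (le_refl 0) (by linarith) hq0
  have c2pos : 0 < 2 * c1 ^ 2 - 1 := by
    rw [hc1, ← Real.cos_two_mul]
    exact Real.cos_pos_of_mem_Ioo ⟨by linarith, by linarith⟩
  have hσ0 : σ s0 = refl (al 0) := hσ 0
  have hσ1 : σ s1 = refl (al 1) := hσ 1
  have hσ2 : σ s2 = refl (al 2) := hσ 2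
  have enr : σ s2 (al 0) = al 0 + (2 * c1) • al 2 := by
    rw [hσ2, refl_apply, n20]
  have mnr : ∀ x : V4, mk x (σ s2 (al 0)) = mk x (al 0) + 2 * c1 * mk x (al 2) := by
    intro x
    rw [hσ2, mk_refl, n20]
  -- the closure
  have hcl : Subgroup.closure {r, s0, s1} = (⊤ : Subgroup M.Group) := by
    have hr' : r ∈ Subgroup.closure {r, s0, s1} := Subgroup.subset_closure (by simp)
    have h0' : s0 ∈ Subgroup.closure {r, s0, s1} := Subgroup.subset_closure (by simp)
    have h1' : s1 ∈ Subgroup.closure {r, s0, s1} := Subgroup.subset_closure (by simp)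
    have h20 : s2 * s0 ∈ Subgroup.closure {r, s0, s1} := by
      obtain ⟨k, hk⟩ := hodd
      have e1 : s2 * s0 = (r * s0) ^ (k + 1) := by
        rw [g1, ← pow_mul]
        have : 2 * (k + 1) = p + 1 := by omega
        rw [this, pow_succ, (d20 p).2 dvd_rfl, one_mul]
      rw [e1]
      exact Subgroup.pow_mem _ (Subgroup.mul_mem _ hr' h0') _
    have h2' : s2 ∈ Subgroup.closure {r, s0, s1} := by
      have e2 : s2 = (s2 * s0) * s0 := by rw [mul_assoc, q0, mul_one]
      rw [e2]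
      exact Subgroup.mul_mem _ h20 h0'
    rw [← M.toCoxeterSystem.subgroup_closure_range_simple]
    apply le_antisymm
    · rw [M.toCoxeterSystem.subgroup_closure_range_simple]; exact le_top
    · rw [Subgroup.closure_le]
      rintro _ ⟨i, rfl⟩
      fin_cases i
      · exact h0'
      · exact h1'
      · exact h2'
  have hB : BStr o (ψ r) (ψ s0) (ψ s1) := by
    refine hBWS M al σ ψ hN hσ hψ hinj 0 1 2 0 s2 o (by decide) (by decide) (by decide)
      (by rw [m01]; norm_num) ho0 ho1 ho2 r rfl hcl ?_ ?_ ?_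
    · rw [mnr, ho0]
      have : 2 * c1 * mk o.1 (al 2) < 0 := mul_neg_of_pos_of_neg (by linarith) ho2
      intro h; linarith
    · rw [enr]
      exact li3 hN.li (by linarith)
    · intro g hg hfix
      refine hCHT M al σ hN hσ 0 1 g (-(σ s2 (al 0))) (by decide) hg ?_ ?_ ?_
      · have : mk (-(σ s2 (al 0))) (al 0) = -(mk (al 0) (σ s2 (al 0))) := by
          rw [mk_symm (al 0)]; unfold mk; simp only [Pi.neg_apply]; ring
        rw [this, mnr, n00, n02]
        nlinarith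
      · have : mk (-(σ s2 (al 0))) (al 1) = -(mk (al 1) (σ s2 (al 0))) := by
          rw [mk_symm (al 1)]; unfold mk; simp only [Pi.neg_apply]; ring
        rw [this, mnr, n10, n12]
        linarith
      · rw [map_neg, hfix]
  have oA : oE (ψ r * ψ s0) = p := by
    rw [← map_mul]
    refine oE_of_iff hinj (by omega) ?_
    intro m
    rw [g1, ← pow_mul, d20]
    constructor
    · intro h
      exact (Nat.coprime_two_right.2 hodd).dvd_of_dvd_mul_left h
    · intro h
      exact Dvd.dvd.mul_left h 2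
  have oB : oE (ψ r * ψ s1) = p := by
    rw [← map_mul]
    refine oE_of_iff hinj (by omega) ?_
    intro m
    rw [g2, conj_pow, conj_eq_one_iff, d02]
  have oC : oE (ψ s0 * ψ s1) = 2 := by
    rw [← map_mul]
    exact oE_of_iff hinj (by norm_num) d01
  obtain ⟨hFS, hDG⟩ := hBEE o (ψ r) (ψ s0) (ψ s1) hB
  refine ⟨KB o (ψ r) (ψ s0) (ψ s1), hBEB _ _ _ _ hB, ?_, ?_, ?_⟩
  · refine hBEF _ _ _ _ hB (Or.inr ?_)
    set u : V4 := (ψ r o).1 with hu
    have eu : u = refl (al 2) (refl (al 0) (refl (al 2) o.1)) := by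
      have h1 : σ r o.1 = (ψ r o).1 := (hψ r).2 o
      rw [hu, ← h1, hr, q2', map_mul, map_mul, hσ2, hσ0]
      rfl
    have e0 : ch (ψ r o) (ψ s0 (ψ r o)) = mk u u + 2 * mk (al 0) u * mk u (al 0) := by
      have h1 : σ s0 (ψ r o).1 = (ψ s0 (ψ r o)).1 := (hψ s0).2 (ψ r o)
      unfold ch
      rw [← h1, hσ0, ← hu, mk_refl]
    have e1 : ch (ψ r o) (ψ s1 (ψ r o)) = mk u u + 2 * mk (al 1) u * mk u (al 1) := by
      have h1 : σ s1 (ψ r o).1 = (ψ s1 (ψ r o)).1 := (hψ s1).2 (ψ r o)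
      unfold ch
      rw [← h1, hσ1, ← hu, mk_refl]
    have f0 : mk (al 0) u = 4 * c1 * mk o.1 (al 2) * (2 * c1 ^ 2 - 1) := by
      rw [eu]
      simp only [mk_refl, n00, n02, n20, n22, mk_symm _ o.1, ho0]
      ring
    have f1 : mk (al 1) u = 4 * c1 * mk o.1 (al 2) * c1 := by
      rw [eu]
      simp only [mk_refl, n02, n20, n22, n10, n12, mk_symm _ o.1, ho0, ho1]
      ring
    rw [e0, e1, mk_symm u (al 0), mk_symm u (al 1), f0, f1]
    intro h
    have h1 : (4 * c1 * mk o.1 (al 2)) ^ 2 * (c1 ^ 2 - (2 * c1 ^ 2 - 1) ^ 2) = 0 := by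
      linear_combination (-1 / 2) * h
    have h2 : (4 * c1 * mk o.1 (al 2)) ^ 2 ≠ 0 := by
      apply pow_ne_zero
      exact mul_ne_zero (by linarith) (by linarith)
    have h3 : 0 < c1 ^ 2 - (2 * c1 ^ 2 - 1) ^ 2 := by
      have h4 : 0 < c1 - (2 * c1 ^ 2 - 1) := by nlinarith
      nlinarith
    rcases mul_eq_zero.1 h1 with h5 | h5
    · exact h2 h5
    · linarith
  · rw [hFS, oA, oB]; simp
  · rw [hDG, oC]; norm_num

end Pool.Agent.H82.TOH
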